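import Mathlib
import Pool.Agent.Results.MP_7f581e_nt.WreathUniform
import Pool.Agent.U671.AG.Gal

/-!
# Every finite group is an automorphism group over `κ(X)` in every large degree it allows

Let `G` be a finite group (its order may be divisible by the characteristic; no realization of `G`
is assumed), `κ` a finite field and `K = κ(X)`.  The inverse Galois problem over `K` asks for an
extension `M/K` of degree `|G|` whose automorphism group is `G`.  The automorphism group of a finite
extension always has an order dividing the degree.

1. For every `n ≥ ((|G| + 2)!)^3` there is a finite separable extension `M/K` of degree `n |G|`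
   with `Aut(M/K) ≅ G`, in which `κ` is algebraically closed.  It contains an extension `E` of `K`
   of degree `n` such that `M/E` is Galois with group `Aut(M/K) = Gal(M/E)`, and every intermediate
   field of `M/K` other than `K` contains `E`.  So the lattice of the intermediate fields of `M/K`
   is that of a Galois extension with group `G` with one new element `K` at the bottom.
2. So for all degrees `d` larger than a bound which depends on `G` only (and not on the finite field
   `κ`), there is a finite separable extension of `κ(X)` of degree `d` with automorphism group `G`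
   if and only if `|G|` divides `d`.
-/

set_option autoImplicit false

open Module

namespace Pool.Agent.Results.MP_7f581e_nt.AutomorphismGroups

/-- `K` is an extension of `κ`. There is a finite separable extension `M` of `K` of degree `n |G|`,
in which `κ` is algebraically closed, with the following properties. The group of the automorphisms
of `M` over `K` is isomorphic to `G`. There is an intermediate field `E` of `M/K` of degree `n` over
`K` such that `M/E` is Galois, all automorphisms of `M/K` are trivial on `E`, and every intermediate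
field of `M/K` other than `K` contains `E`. -/
def HasExtension (κ K G : Type) [Field κ] [Field K] [Algebra κ K] [Group G] (n : ℕ) : Prop :=
  ∃ (M : Type) (_ : Field M) (_ : Algebra K M) (_ : Algebra κ M) (_ : IsScalarTower κ K M)
    (E : IntermediateField K M),
    FiniteDimensional K M ∧ Algebra.IsSeparable K M ∧
    (∀ y : M, IsAlgebraic κ y → y ∈ Set.range (algebraMap κ M)) ∧
    finrank K M = n * Nat.card G ∧ Nonempty ((M ≃ₐ[K] M) ≃* G) ∧
    finrank K E = n ∧ IsGalois E M ∧ (∀ φ : M ≃ₐ[K] M, ∀ x ∈ E, φ x = x) ∧
    ∀ F : IntermediateField K M, F = ⊥ ∨ E ≤ F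

/-- There is a finite separable extension of `K` of degree `d` with automorphism group `G`. For
`d = |G|` this says that `G` occurs over `K`. -/
def IsAutomorphismGroup (K G : Type) [Field K] [Group G] (d : ℕ) : Prop :=
  ∃ (M : Type) (_ : Field M) (_ : Algebra K M),
    FiniteDimensional K M ∧ Algebra.IsSeparable K M ∧ finrank K M = d ∧
    Nonempty ((M ≃ₐ[K] M) ≃* G)

theorem hasExtension (G : Type) [Group G] [Finite G] (n : ℕ)
    (hn : ((Nat.card G + 2).factorial) ^ 3 ≤ n) (κ : Type) [Field κ] [Finite κ] :
    HasExtension κ (RatFunc κ) G n := by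
  obtain ⟨L, i1, i2, i3, i4, i5, i6, ⟨e⟩, h⟩ := (WreathUniform.result G n hn κ).1
  have hn3 : 3 ≤ n := by
    have h1 : 0 < Nat.card G := Nat.card_pos
    have h2 : Nat.card G + 2 ≤ (Nat.card G + 2).factorial := Nat.self_le_factorial _
    have h3 : (Nat.card G + 2).factorial ≤ ((Nat.card G + 2).factorial) ^ 3 :=
      Nat.le_self_pow (by norm_num) _
    omega
  obtain ⟨M, E, h1, h2, h3, h4, h5, h6⟩ := Pool.Agent.U671.AG.main hn3 e
  refine ⟨M, inferInstance, inferInstance, inferInstance, inferInstance, E, inferInstance,
    inferInstance, fun y hy => ?_, h2, h4, h1, h3, h5, h6⟩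
  have h7 : IsAlgebraic κ (y : L) := by
    obtain ⟨p, hp, hpy⟩ := hy
    refine ⟨p, hp, ?_⟩
    have h8 := congrArg (algebraMap M L) hpy
    rw [Polynomial.aeval_def, Polynomial.hom_eval₂, map_zero] at h8
    exact h8
  obtain ⟨z, hz⟩ := h _ h7
  exact ⟨z, Subtype.ext hz⟩

theorem card_dvd (K M G : Type) [Field K] [Field M] [Algebra K M] [FiniteDimensional K M]
    [Group G] (e : (M ≃ₐ[K] M) ≃* G) : Nat.card G ∣ finrank K M := by
  have h1 : finrank (IntermediateField.fixedField (⊤ : Subgroup (M ≃ₐ[K] M))) M
      = Nat.card (⊤ : Subgroup (M ≃ₐ[K] M)) := IntermediateField.finrank_fixedField_eq_card _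
  have h2 := finrank_mul_finrank K (IntermediateField.fixedField (⊤ : Subgroup (M ≃ₐ[K] M))) M
  rw [h1, Nat.card_congr Subgroup.topEquiv.toEquiv, Nat.card_congr e.toEquiv] at h2
  exact ⟨_, by rw [← h2, mul_comm]⟩

/-- (1) For every finite group `G`, every `n ≥ ((|G| + 2)!)^3` and every finite field `κ` there is an
extension `M/κ(X)` as in `HasExtension`: of degree `n |G|`, separable, regular over `κ`, with
`Aut(M/κ(X)) ≅ G`, whose intermediate fields are `κ(X)` and the fields fixed by the subgroups of
`G`. (2) For every finite group `G` there is a number `d₀` such that for every finite field `κ` and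
every `d ≥ d₀` the group `G` is the automorphism group of a finite separable extension of `κ(X)` of
degree `d` if and only if `|G|` divides `d`. -/
theorem result :
    (∀ (G : Type) [Group G] [Finite G] (n : ℕ), ((Nat.card G + 2).factorial) ^ 3 ≤ n →
      ∀ (κ : Type) [Field κ] [Finite κ], HasExtension κ (RatFunc κ) G n) ∧
    (∀ (G : Type) [Group G] [Finite G], ∃ d₀ : ℕ, ∀ (κ : Type) [Field κ] [Finite κ],
      ∀ d : ℕ, d₀ ≤ d → (IsAutomorphismGroup (RatFunc κ) G d ↔ Nat.card G ∣ d)) := by
  refine ⟨fun G _ _ n hn κ _ _ => hasExtension G n hn κ, fun G _ _ => ?_⟩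
  refine ⟨((Nat.card G + 2).factorial) ^ 3 * Nat.card G, fun κ _ _ d hd => ⟨?_, ?_⟩⟩
  · rintro ⟨M, i1, i2, h1, h2, h3, ⟨e⟩⟩
    rw [← h3]
    exact card_dvd (RatFunc κ) M G e
  · rintro ⟨n, rfl⟩
    have h0 : 0 < Nat.card G := Nat.card_pos
    have hn : ((Nat.card G + 2).factorial) ^ 3 ≤ n := by
      rw [mul_comm (Nat.card G)] at hd
      exact Nat.le_of_mul_le_mul_right hd h0
    obtain ⟨M, i1, i2, i3, i4, E, h1, h2, h3, h4, h5, -⟩ := hasExtension G n hn κ
    exact ⟨M, i1, i2, h1, h2, by rw [h4, mul_comm], h5⟩

end Pool.Agent.Results.MP_7f581e_nt.AutomorphismGroups
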