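import Mathlib
import Pool.Agent.U301.PB.Tow

/-!
# Every second countable profinite group is the automorphism group of a separable algebraic
extension of `k(X)` with field of constants `k`, for every field `k`

Let `k` be any field (for example `F_p`), `l/k` a finite Galois extension, `Γ` any second countable
profinite group and `α : Γ → Gal(l/k)` a continuous homomorphism with a section.  Then there are a
separable algebraic extension `F` of `k(X)` containing `l`, with `l` algebraically closed in `F`,
and an isomorphism `θ` of topological groups from `Γ` to the full automorphism group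
`Aut(F/k(X))` with its Krull topology such that `θ g` restricts to `α g` on `l` for all `g` in `Γ`.
In particular (`l = k`) every second countable profinite group is `Aut(F/k(X))` for a separable
algebraic extension `F` of `k(X)` in which `k` is algebraically closed.

If `k` is countable, for example finite, then no other groups occur: for every algebraic extension
`F` of `k(X)` the group `Aut(F/k(X))` is a second countable profinite group.

The proof: let `U_0 ⊇ U_1 ⊇ ...` be open normal subgroups of `Γ` in the kernel of `α` with trivial
intersection, `G_j = Γ/U_j`, `Q_j = (S_3 × S_3)^(G_j) ⋊ G_j`.  By an earlier result on infinite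
towers (`MP_7f581e_nt.RegularTowers` and its version with constants) there is a Galois extension
`L/k(X)` containing `l`, regular over `l`, whose group is the group `P` of all `(x, ρ)` with `x` in
`∏ Q_j ≀ S_(n_j)` such that all coordinates of all `x_j` have the image `ρ` in `Gal(l/k)`.  Let `D` be
the group of the `(x, ρ)` in `P` whose `j`-th permutation fixes the first index for all `j`, and
whose components `q_j` in `Q_j` at the first index are compatible: the images of `q_j` in `G_j` form
an element of `Γ`, and the first `S_3`-part of `q_(j+1)` is the pull back of the second `S_3`-part of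
`q_j`.  The normalizer in `P` of the kernel `H` of `D → Γ` is `D`, and `F` is the fixed field of `H`.
-/

set_option autoImplicit false

namespace Pool.Agent.Results.MP_7f581e_nt.RegularProfiniteGroups

/-- The embedding problem `α : Γ → Gal(l/k)` has a section. -/
def Splits {k l Γ : Type} [Field k] [Field l] [Algebra k l] [Group Γ]
    (α : Γ →* (l ≃ₐ[k] l)) : Prop :=
  ∃ s : (l ≃ₐ[k] l) →* Γ, ∀ ρ, α (s ρ) = ρ

/-- There are a separable algebraic extension `F` of `k(X)` containing `l` (compatibly with
`k`), such that all elements of `F` which are algebraic over `l` are in `l`, and an isomorphism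
`θ` of topological groups from `Γ` to `Aut(F/k(X))` such that `θ g` is `α g` on `l`. -/
def RegularSolution {k l Γ : Type} [Field k] [Field l] [Algebra k l] [Group Γ]
    [TopologicalSpace Γ] (α : Γ →* (l ≃ₐ[k] l)) : Prop :=
  ∃ (F : Type) (_ : Field F) (_ : Algebra (RatFunc k) F) (_ : Algebra l F) (_ : Algebra k F)
    (_ : IsScalarTower k (RatFunc k) F) (_ : IsScalarTower k l F)
    (_ : Algebra.IsSeparable (RatFunc k) F) (θ : Γ ≃ₜ* (F ≃ₐ[RatFunc k] F)),
    (∀ (g : Γ) (x : l), θ g (algebraMap l F x) = algebraMap l F (α g x)) ∧
    ∀ y : F, IsAlgebraic l y → y ∈ Set.range (algebraMap l F)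

/-- There are a separable algebraic extension `F` of `k(X)` such that all elements of `F` which
are algebraic over `k` are in `k`, and an isomorphism of topological groups from `Γ` to
`Aut(F/k(X))`. -/
def OccursAsRegularAut (k Γ : Type) [Field k] [Group Γ] [TopologicalSpace Γ] : Prop :=
  ∃ (F : Type) (_ : Field F) (_ : Algebra (RatFunc k) F) (_ : Algebra k F)
    (_ : IsScalarTower k (RatFunc k) F) (_ : Algebra.IsSeparable (RatFunc k) F),
    Nonempty (Γ ≃ₜ* (F ≃ₐ[RatFunc k] F)) ∧ ∀ y : F, IsAlgebraic k y → y ∈ Set.range (algebraMap k F)

/-- `Aut(F/E)` with the Krull topology is compact, totally disconnected and second countable. -/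
def AutIsSecondCountableProfinite (E F : Type) [Field E] [Field F] [Algebra E F] : Prop :=
  CompactSpace (F ≃ₐ[E] F) ∧ TotallyDisconnectedSpace (F ≃ₐ[E] F) ∧
    SecondCountableTopology (F ≃ₐ[E] F)

theorem countable_ratFunc (k : Type) [Field k] [Countable k] : Countable (RatFunc k) := by
  have h0 : Countable (Polynomial k) := by
    rw [← Cardinal.mk_le_aleph0_iff]
    exact Polynomial.cardinalMk_le_max.trans (max_le Cardinal.mk_le_aleph0 le_rfl)
  exact (show Function.Surjective fun f : Polynomial k × Polynomial k =>
    algebraMap (Polynomial k) (RatFunc k) f.1 / algebraMap (Polynomial k) (RatFunc k) f.2 from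
    fun f => ⟨(f.num, f.denom), RatFunc.num_div_denom f⟩).countable

theorem occurs (k Γ : Type) [Field k] [Group Γ] [TopologicalSpace Γ] [IsTopologicalGroup Γ]
    [CompactSpace Γ] [TotallyDisconnectedSpace Γ] [SecondCountableTopology Γ] :
    OccursAsRegularAut k Γ := by
  obtain ⟨F, i1, i2, i3, i4, i5, i6, i7, θ, -, h⟩ :=
    Pool.Agent.U301.PA.reg_main k k Γ 1 continuous_const 1 fun ρ => by
      ext x
      exact (ρ.commutes x).symm
  have h34 : i3 = i4 := Algebra.algebra_ext _ _ fun r =>
    (@IsScalarTower.algebraMap_apply k k F _ _ _ (Algebra.id k) i3 i4 i6 r).symm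
  subst h34
  exact ⟨F, i1, i2, i3, i5, i7, ⟨θ⟩, h⟩

theorem profinite (E F : Type) [Field E] [Field F] [Algebra E F] [Countable E]
    [Algebra.IsAlgebraic E F] : AutIsSecondCountableProfinite E F := by
  have hc : CompactSpace (F ≃ₐ[E] F) := Pool.Agent.U301.PA.compact_aut_all
  have h1 : Countable F := by
    rw [← Cardinal.mk_le_aleph0_iff]
    exact (Algebra.IsAlgebraic.cardinalMk_le_max E F).trans (max_le Cardinal.mk_le_aleph0 le_rfl)
  exact ⟨hc, inferInstance, Pool.Agent.U301.PA.secondCountable_aut⟩

end Pool.Agent.Results.MP_7f581e_nt.RegularProfiniteGroups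

open Pool.Agent.Results.MP_7f581e_nt.RegularProfiniteGroups in
/-- Regular solutions of split embedding problems with second countable profinite groups by
automorphism groups of separable algebraic extensions of `k(X)`. -/
theorem Pool.Agent.Results.MP_7f581e_nt.RegularProfiniteGroups.result :
    ∀ (k : Type) [Field k],
      (∀ (Γ : Type) [Group Γ] [TopologicalSpace Γ] [IsTopologicalGroup Γ] [CompactSpace Γ]
        [TotallyDisconnectedSpace Γ] [SecondCountableTopology Γ],
        OccursAsRegularAut k Γ ∧
        ∀ (l : Type) [Field l] [Algebra k l] [FiniteDimensional k l] [IsGalois k l]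
          (α : Γ →* (l ≃ₐ[k] l)), Continuous α → Splits α → RegularSolution α) ∧
      (Countable k → ∀ (F : Type) [Field F] [Algebra (RatFunc k) F]
        [Algebra.IsAlgebraic (RatFunc k) F], AutIsSecondCountableProfinite (RatFunc k) F) := by
  intro k _
  refine ⟨?_, ?_⟩
  · intro Γ _ _ _ _ _ _
    refine ⟨occurs k Γ, ?_⟩
    intro l _ _ _ _ α hα ⟨s, hs⟩
    exact Pool.Agent.U301.PA.reg_main k l Γ α hα s hs
  · intro _ F _ _ _
    have := countable_ratFunc k
    exact profinite (RatFunc k) F
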