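import Pool.Agent.U36.RG.Fp

/-!
# The inverse Galois problem over `𝔽_p(X)` is equivalent to the regular inverse Galois problem over
all global function fields of characteristic `p`

A finite group `G` occurs over a field `E` if it is the Galois group of a finite Galois extension of
`E`; if `E` contains the field `k`, then `G` occurs regularly over `E / k` if the extension `L` can be
chosen such that all elements of `L` which are algebraic over `k` lie in `E`.  Let `ω(n)` be the
number of the prime factors of `n`.

* Let `k` be a finite field.  If the power `G ^ (ω(|G|) + 1)` occurs over `k(X)`, then `G` occurs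
  regularly over `k(X)`.
* Let `F` be a finite extension of `k(X)`.  If the power of `G` with the exponent
  `(log₂ [F : k(X)] + 1) (ω(|G|) + 1)` occurs over `k(X)`, then `G` occurs regularly over `F`.
* So, for every prime `p`, the following statements are equivalent: every finite group occurs over
  `𝔽_p(X)`; every finite group occurs regularly over `𝔽_p(X)`; every finite group occurs regularly
  over every finite extension of `𝔽_p(X)` (for example over `𝔽_q(X)` for all powers `q` of `p`).

Proof.  Let `L / F` be an extension with group `G ^ N`, and let `C` be the field of constants of `L`.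
If none of the `N` coordinate extensions `L_i` is regular then the fields of constants `C_i` of the
`L_i` have degrees `> 1` over that of `F` which divide `|G|`; they are pairwise coprime, since `C` is
a cyclic extension and `L_i`, `L_j` are linearly disjoint.  So `N ≤ ω(|G|)`.
-/

set_option autoImplicit false

namespace Pool.Agent.Results.MP_7f581e_nt.RegularRealizations

/-- `G` is the group of a finite Galois extension of `E` -/
def Occurs (E : Type) [Field E] (G : Type) [Group G] : Prop :=
  ∃ (L : Type) (_ : Field L) (_ : Algebra E L), FiniteDimensional E L ∧ IsGalois E L ∧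
    Nonempty ((L ≃ₐ[E] L) ≃* G)

/-- `G` is the group of a finite Galois extension `L` of `E` such that every element of `L` which is
algebraic over the subfield `k` of `E` lies in `E` -/
def OccursRegularly (k E : Type) [Field k] [Field E] [Algebra k E] (G : Type) [Group G] : Prop :=
  ∃ (L : Type) (_ : Field L) (_ : Algebra E L) (_ : Algebra k L) (_ : IsScalarTower k E L),
    FiniteDimensional E L ∧ IsGalois E L ∧ Nonempty ((L ≃ₐ[E] L) ≃* G) ∧
      ∀ y : L, IsAlgebraic k y → y ∈ Set.range (algebraMap E L)

/-- the number of the prime factors of the order of `G` -/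
noncomputable def omega (G : Type) : ℕ := (Nat.card G).primeFactors.card

theorem result :
    -- powers that occur over `k(X)` give regular realizations over `k(X)` ...
    (∀ (k : Type) [Field k] [Finite k] (G : Type) [Group G] [Finite G],
      Occurs (RatFunc k) (Fin (omega G + 1) → G) → OccursRegularly k (RatFunc k) G) ∧
    -- ... and over the finite extensions of `k(X)`
    (∀ (k : Type) [Field k] [Finite k] (F : Type) [Field F] [Algebra (RatFunc k) F] [Algebra k F]
      [IsScalarTower k (RatFunc k) F] [FiniteDimensional (RatFunc k) F]
      (G : Type) [Group G] [Finite G],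
      Occurs (RatFunc k)
        (Fin ((Nat.log 2 (Module.finrank (RatFunc k) F) + 1) * (omega G + 1)) → G) →
      OccursRegularly k F G) ∧
    -- the equivalences
    (∀ (p : ℕ) [Fact p.Prime],
      ((∀ (G : Type) [Group G] [Finite G], Occurs (RatFunc (ZMod p)) G) ↔
        ∀ (G : Type) [Group G] [Finite G],
          OccursRegularly (ZMod p) (RatFunc (ZMod p)) G) ∧
      ((∀ (G : Type) [Group G] [Finite G], Occurs (RatFunc (ZMod p)) G) ↔
        ∀ (F : Type) [Field F] [Algebra (RatFunc (ZMod p)) F] [Algebra (ZMod p) F]
          [IsScalarTower (ZMod p) (RatFunc (ZMod p)) F]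
          [FiniteDimensional (RatFunc (ZMod p)) F] (G : Type) [Group G] [Finite G],
          OccursRegularly (ZMod p) F G)) := by
  have h1 : ∀ (k : Type) [Field k] [Finite k] (F : Type) [Field F] [Algebra (RatFunc k) F]
      [Algebra k F] [IsScalarTower k (RatFunc k) F] [FiniteDimensional (RatFunc k) F]
      (G : Type) [Group G] [Finite G],
      Occurs (RatFunc k)
        (Fin ((Nat.log 2 (Module.finrank (RatFunc k) F) + 1) * (omega G + 1)) → G) →
      OccursRegularly k F G := fun k _ _ F _ _ _ _ _ G _ _ h =>
    U36.RG.OccursRegularly.of_finite (U36.RG.algClosedIn_ratFunc k) h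
  have h2 : ∀ (k : Type) [Field k] [Finite k] (G : Type) [Group G] [Finite G],
      Occurs (RatFunc k) (Fin (omega G + 1) → G) → OccursRegularly k (RatFunc k) G :=
    fun k _ _ G _ _ h =>
      U36.RG.OccursRegularly.of_pow (U36.RG.algClosedIn_ratFunc k) (Nat.lt_succ_self _) h
  refine ⟨h2, h1, fun p _ => ⟨⟨fun h G _ _ => h2 (ZMod p) G (h _), fun h G _ _ =>
    U36.RG.OccursRegularly.occurs (h G)⟩,
    ⟨fun h F _ _ _ _ _ G _ _ => h1 (ZMod p) F G (h _), fun h G _ _ => ?_⟩⟩⟩
  exact U36.RG.OccursRegularly.occurs (h (RatFunc (ZMod p)) G)

end Pool.Agent.Results.MP_7f581e_nt.RegularRealizations
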