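import Mathlib
import Pool.Agent.U975.RF.Main

/-!
# The inverse Galois problem over `F_p(X)` with restricted ramification

Let `κ` be a finite field of characteristic `p`, for example `F_p`. If all finite groups occur over
`κ(X)`, then every finite group `G` occurs over `κ(X)` by an extension `L` with field of constants
`κ` and strongly restricted tame ramification, for all `k` and `b`: if a prime `l ≠ p` divides the
order of the inertia group of a prime `P` of `L` (over any place of `κ(X)`, given by any Dedekind
domain `A` with fraction field `κ(X)`), then the residue field of `P` contains the `l ^ k`-th roots of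
unity, and the residue field of `A` has more than `b` elements. So the inertia groups at all places
of small degree are `p`-groups, and trivial if `p` does not divide the order of `G`.

The proof: `G` is a quotient of a finite group `X` such that the characters of order `l` of all
subgroups of `G` lift to characters of order `l ^ k` of their inverse images in `X` (subgroups of free
groups are free); this forces the restriction on the ramification. The extensions given by the
factors of `X ^ m` are linearly disjoint, and only few of them can contain new constants, as the
Galois groups of finite fields are cyclic.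
-/

set_option autoImplicit false

namespace Pool.Agent.Results.MP_7f581e_nt.RestrictedRamification

/-- The finite group `G` occurs over the field `K`: it is the Galois group of a finite Galois
extension of `K`. -/
def Occurs (K G : Type) [Field K] [Group G] : Prop :=
  ∃ (L : Type) (_ : Field L) (_ : Algebra K L), FiniteDimensional K L ∧ IsGalois K L ∧
    Nonempty (Gal(L/K) ≃* G)

/-- The elements of the extension `L` of `κ(X)` which are algebraic over `κ` are in `κ`. -/
def IsRegular (κ L : Type) [Field κ] [Field L] [Algebra (RatFunc κ) L] : Prop :=
  ∀ x : L, (∃ f : Polynomial κ, f ≠ 0 ∧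
    f.eval₂ ((algebraMap (RatFunc κ) L).comp (algebraMap κ (RatFunc κ))) x = 0) →
    ∃ c : κ, algebraMap (RatFunc κ) L (algebraMap κ (RatFunc κ) c) = x

/-- The ramification of `L/K` is restricted: for every Dedekind domain `A` with fraction field `K`,
every nonzero maximal ideal `P` of the integral closure of `A` in `L` and every prime number `l ≠ p`
dividing the order of the inertia group of `P` in `Gal(L/K)`: the residue field at `P` contains a
primitive `l ^ k`-th root of unity, and if the residue field of `A` at `P ∩ A` is finite, it has more
than `b` elements. -/
def Restricted (K L : Type) [Field K] [Field L] [Algebra K L] (p k b : ℕ) : Prop :=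
  ∀ (A : Type) [CommRing A] [IsDedekindDomain A] [Algebra A K] [IsFractionRing A K]
    [Algebra A L] [IsScalarTower A K L] (P : Ideal (integralClosure A L)), P.IsMaximal → P ≠ ⊥ →
    ∀ l : ℕ, l.Prime → l ≠ p → l ∣ Nat.card (P.inertia Gal(L/K)) →
      (∃ ζ : integralClosure A L ⧸ P, IsPrimitiveRoot ζ (l ^ k)) ∧
      (Finite (A ⧸ P.under A) → b < Nat.card (A ⧸ P.under A))

end Pool.Agent.Results.MP_7f581e_nt.RestrictedRamification

open Pool.Agent.Results.MP_7f581e_nt.RestrictedRamification in
/-- Let `κ` be a finite field of characteristic `p`. All finite groups occur over `κ(X)` if and only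
if, for all `k` and `b`, they occur by extensions without new constants, with restricted
ramification. -/
theorem Pool.Agent.Results.MP_7f581e_nt.RestrictedRamification.result
    (p : ℕ) [Fact p.Prime] (κ : Type) [Field κ] [Finite κ] [CharP κ p] :
    (∀ (G : Type) [Group G] [Finite G], Occurs (RatFunc κ) G) ↔
    ∀ (G : Type) [Group G] [Finite G] (k b : ℕ),
      ∃ (L : Type) (_ : Field L) (_ : Algebra (RatFunc κ) L),
        FiniteDimensional (RatFunc κ) L ∧ IsGalois (RatFunc κ) L ∧
        Nonempty (Gal(L/RatFunc κ) ≃* G) ∧ IsRegular κ L ∧ Restricted (RatFunc κ) L p k b := by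
  constructor
  · intro h G _ _ k b
    obtain ⟨L, i1, i2, h1, h2, h3, h4, h5⟩ :=
      Pool.Agent.U975.RF.exists_regular_restricted (κ := κ) (K := RatFunc κ)
        (Pool.Agent.U975.RF.ratFunc_reg κ) (fun G _ _ => by
          obtain ⟨L, i1, i2, h1, h2, h3⟩ := h G
          exact ⟨L, i1, i2, h1, h2, h3⟩) G k b
    refine ⟨L, i1, i2, h1, h2, h3, h4, ?_⟩
    intro A _ _ _ _ _ _ P hP hP0 l hl hlp hd
    refine h5 A P hP hP0 l hl ?_ hd
    intro hlP
    have hchar : CharP L p := charP_of_injective_ringHom
      ((algebraMap (RatFunc κ) L).comp (algebraMap κ (RatFunc κ))).injective p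
    have hp0 : (p : integralClosure A L) = 0 := by
      apply Subtype.ext
      have : ((p : integralClosure A L) : L) = (p : L) := by simp
      rw [this, CharP.cast_eq_zero]
      rfl
    have hco : Nat.Coprime l p := (Nat.coprime_primes hl Fact.out).2 hlp
    have hb := Nat.gcd_eq_gcd_ab l p
    rw [hco] at hb
    apply hP.ne_top
    rw [Ideal.eq_top_iff_one]
    have e : (1 : integralClosure A L) = (l : integralClosure A L) * ((l.gcdA p : ℤ) :
        integralClosure A L) + (p : integralClosure A L) * ((l.gcdB p : ℤ) :
        integralClosure A L) := by
      have := congrArg (fun z : ℤ => (z : integralClosure A L)) hb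
      push_cast at this
      exact this
    rw [e, hp0, zero_mul, add_zero]
    exact Ideal.mul_mem_right _ _ hlP
  · intro h G _ _
    obtain ⟨L, i1, i2, h1, h2, h3, -⟩ := h G 0 0
    exact ⟨L, i1, i2, h1, h2, h3⟩
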